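import Mathlib
import Pool.Agent.H861R2.EqP.Alg

set_option autoImplicit false

/-!
The equality problem (uniform word problem) is undecidable in the variety `M(n)` for all `n ≥ 3`
and in the variety `S(n)` for all `n ≥ 6`, over every field of characteristic zero.

Idea of the proof. The contents of the counters of a two-counter machine are kept as commuting
monomials in one of two blocks: `u · x-monomial · v_s · z-monomial · w`. The letters of a block can
be moved through `v_s` by relations, but since the ideal operations only reach the two ends of the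
word, a relation `u X v_s = ⋯` (or `v_s w = ⋯`) applies only if the block is exactly `X` (or
empty). Hence all relations of the machine can be written with finitely many words. The
resulting algebra embeds modulo the relations in `3 × 3` matrices (`u = E₀₁`, `x = X E₁₁`,
`v_s = T_s E₁₂`, `z = Z E₂₂`, `w = E₂₀`) as well as in upper triangular `4 × 4` matrices with
vanishing first and last diagonal entries, which satisfy `s_6`.

The definitions (`QPoly`, `evalF`, `InM`, `standard`, `InS`, `Holds`) are in
`Pool.Agent.H861R2.EqP.Defs`.
-/

namespace Pool.Agent.Results.MP_79b5eb_lc.EqualityUndecidable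

open Pool.Agent.H861R2.EqP Pool.Agent.Helper599.Core Pool.Agent.Helper599.Source

universe u

section Coding

variable {Q : Type} (M : Sys Q Bool) [Finite Q]

/-- index of the variable of a letter -/
noncomputable def lc : Lt M → ℕ
  | .u => 0
  | .w => 1
  | .x true => 2
  | .x false => 3
  | .z true => 4
  | .z false => 5
  | .v s => code M s + 6

/-- letter of a variable -/
noncomputable def ic : ℕ → Lt M
  | 0 => .u
  | 1 => .w
  | 2 => .x true
  | 3 => .x false
  | 4 => .z true
  | 5 => .z false
  | n + 6 => .v (dcd M n)

theorem ic_lc (l : Lt M) : ic M (lc M l) = l := by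
  cases l with
  | u => rfl
  | w => rfl
  | x j => cases j <;> rfl
  | z j => cases j <;> rfl
  | v s =>
    change Lt.v (dcd M (code M s)) = _
    rw [dcd_code]

/-- the polynomial `a` for a word `a` -/
noncomputable def pw (a : List (Lt M)) : QPoly := [((1, 0), a.map (lc M))]

/-- the polynomial `a - b` for words `a`, `b` -/
noncomputable def pd (a b : List (Lt M)) : QPoly :=
  [((1, 0), a.map (lc M)), ((-1, 0), b.map (lc M))]

/-- the relations -/
noncomputable def rels : List QPoly :=
  pw M [.v (.inl none)] :: (R_finite M).toFinset.toList.map fun p => pd M p.1 p.2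

variable (F : Type u) [Field F] {A : Type u} [NonUnitalRing A] [Module F A]

theorem evalF_pw (a : List (Lt M)) (x : ℕ → A) :
    evalF ((pw M a).toF F) x = mulList (a.map fun l => x (lc M l)) := by
  simp only [pw, QPoly.toF, evalF, List.map_cons, List.map_nil, List.sum_cons, List.sum_nil,
    List.map_map, add_zero, Int.cast_one, zero_add, Nat.cast_one, div_one, one_smul]
  rfl

theorem evalF_pd (a b : List (Lt M)) (x : ℕ → A) :
    evalF ((pd M a b).toF F) x = mulList (a.map fun l => x (lc M l)) -
      mulList (b.map fun l => x (lc M l)) := by
  simp only [pd, QPoly.toF, evalF, List.map_cons, List.map_nil, List.sum_cons, List.sum_nil,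
    List.map_map, add_zero, Int.cast_one, zero_add, Nat.cast_one, div_one, one_smul,
    Int.cast_neg, neg_smul, sub_eq_add_neg]
  rfl

theorem rels_iff (x : ℕ → A) : (∀ p ∈ rels M, evalF (p.toF F) x = 0) ↔
    mulList ([Lt.v (.inl none)].map fun l => x (lc M l)) = 0 ∧
    ∀ a b, R M a b → mulList (a.map fun l => x (lc M l)) = mulList (b.map fun l => x (lc M l)) := by
  constructor
  · intro h
    refine ⟨?_, ?_⟩
    · rw [← evalF_pw M F]
      exact h _ (List.mem_cons_self ..)
    · intro a b hab
      have h1 : pd M a b ∈ rels M := by
        refine List.mem_cons_of_mem _ (List.mem_map.2 ⟨(a, b), ?_, rfl⟩)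
        rw [Finset.mem_toList, Set.Finite.mem_toFinset]
        exact hab
      have h2 := h _ h1
      rw [evalF_pd] at h2
      exact sub_eq_zero.1 h2
  · rintro ⟨h0, h1⟩ p hp
    rcases List.mem_cons.1 hp with rfl | hp
    · rw [evalF_pw]; exact h0
    · obtain ⟨⟨a, b⟩, hab, rfl⟩ := List.mem_map.1 hp
      rw [Finset.mem_toList, Set.Finite.mem_toFinset] at hab
      rw [evalF_pd]
      exact sub_eq_zero.2 (h1 a b hab)

omit [Finite Q] in
theorem R_ne {a b : List (Lt M)} (h : R M a b) : a ≠ [] ∧ b ≠ [] := by
  cases h <;> simp

theorem holds_of_halts [IsScalarTower F A A] [SMulCommClass F A A] {o : Option Q}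
    {n : Bool → ℕ} (h : M.Halts o n) : Holds F (rels M) (pw M (conf o n)) A := by
  intro x hx
  obtain ⟨h0, h1⟩ := (rels_iff M F x).1 hx
  let f : Lt M → Unitization F A := fun l => Unitization.inr (x (lc M l))
  have key : ∀ a : List (Lt M), a ≠ [] →
      ev f a = Unitization.inr (mulList (a.map fun l => x (lc M l))) := by
    intro a ha
    have h2 := mulList_map (Unitization.inrNonUnitalAlgHom F A : A →ₙ+* Unitization F A)
      (a.map fun l => x (lc M l))
    have h3 : (a.map f) ≠ [] := by simpa using ha
    rw [ev, ← mulList_eq_prod h3]
    refine Eq.trans ?_ h2.symm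
    rw [List.map_map]
    rfl
  have h4 := sound f (fun a b hab => by
    rw [key a (R_ne M hab).1, key b (R_ne M hab).2, h1 a b hab]) (by
    have := key [.v (.inl none)] (by simp)
    rw [h0, Unitization.inr_zero] at this
    simpa [ev] using this) h
  rw [key _ (by simp [conf])] at h4
  rw [evalF_pw]
  exact Unitization.inr_injective (h4.trans (Unitization.inr_zero F).symm)

/-- the variables as letters acting on the module -/
noncomputable def xa (i : ℕ) : AA M F := ⟨op M F (ic M i), op_mem_AA M F _⟩

theorem mulList_xa {a : List (Lt M)} (ha : a ≠ []) :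
    ((mulList (a.map fun l => xa M F (lc M l)) : AA M F) : Module.End F (Vm M F)) =
      opW M F a := by
  have h2 := mulList_map (NonUnitalSubalgebraClass.subtype (AA M F) :
    AA M F →ₙ+* Module.End F (Vm M F)) (a.map fun l => xa M F (lc M l))
  rw [List.map_map] at h2
  have h3 : (a.map (op M F)) ≠ [] := by simpa using ha
  rw [opW, ← mulList_eq_prod h3]
  refine Eq.trans h2 ?_
  congr 1
  apply List.map_congr_left
  intro l _
  change op M F (ic M (lc M l)) = _
  rw [ic_lc]

theorem not_holds {o : Option Q} {n : Bool → ℕ} (h : ¬ M.Halts o n) :
    ¬ Holds F (rels M) (pw M (conf o n)) (AA M F) := by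
  intro hh
  have h1 := hh (xa M F) ((rels_iff M F _).2 ⟨?_, ?_⟩)
  · rw [evalF_pw] at h1
    have h2 := congrArg (Subtype.val) h1
    rw [mulList_xa M F (by simp [conf])] at h2
    exact opW_conf M F h h2
  · apply Subtype.ext
    rw [mulList_xa M F (by simp), opW]
    simp [op_zero]
  · intro a b hab
    apply Subtype.ext
    rw [mulList_xa M F (R_ne M hab).1, mulList_xa M F (R_ne M hab).2, opW_R M F hab]

end Coding

/-- The list of the machine configuration is computable. -/
theorem conf_computable {Q : Type} (M : Sys Q Bool) [Finite Q] (q0 : Q) (N : ℕ → ℕ)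
    (hN : Computable N) : Computable fun n => pw M (conf (some q0) (ini (N n))) := by
  have h1 : (fun n => pw M (conf (some q0) (ini (N n)))) = fun n =>
      ([(((1 : ℤ), 0), 0 :: (((List.range (N n)).map fun _ => 2) ++
        [lc M (.v (.inl (some q0))), 1]))] : QPoly) := by
    funext n
    simp [pw, conf, xw, ini, lc, List.map_replicate, List.map_const']
  rw [h1]
  have h2 : Primrec fun k : ℕ => ([(((1 : ℤ), 0), 0 :: (((List.range k).map fun _ => 2) ++
        [lc M (.v (.inl (some q0))), 1]))] : QPoly) := by
    have h3 : Primrec fun k : ℕ => (List.range k).map fun _ => 2 :=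
      Primrec.list_map Primrec.list_range (Primrec.const 2).to₂
    have h4 := Primrec.list_append.comp h3
      (Primrec.const [lc M (.v (.inl (some q0))), 1])
    have h5 := Primrec.list_cons.comp (Primrec.const 0) h4
    have h6 := Primrec.pair (Primrec.const ((1 : ℤ), 0)) h5
    exact Primrec.list_cons.comp h6 (Primrec.const [])
  exact h2.to_comp.comp hN

theorem inM_mono (F : Type u) [Field F] {n : ℕ} (hn : 3 ≤ n) {A : Type u} [NonUnitalRing A]
    [Module F A] (h : InM F 3 A) : InM F n A :=
  fun p hp => h p (identity_corner F hn p hp)

/-- **Theorem.** Let `F` be a field of characteristic zero.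

(1) There is one finite system `us` of noncommutative polynomials with rational coefficients and
without constant term such that for every class `K` of associative `F`-algebras (without unit in
general) which contains all algebras lying in `M(3)` and in all `S(m)`, `m ≥ 6`, no algorithm
decides, given a polynomial `w`, whether the quasi-identity `us = 0 → w = 0` holds in all algebras
of the class `K`.

(2) For every `n ≥ 3` the equality problem in the variety `M(n)` is undecidable.

(3) For every `n ≥ 6` the equality problem in the variety `S(n)` is undecidable. -/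
theorem result (F : Type u) [Field F] [CharZero F] :
    (∃ us : List QPoly,
      ∀ K : (∀ (A : Type u) [NonUnitalRing A] [Module F A] [IsScalarTower F A A]
          [SMulCommClass F A A], Prop),
        (∀ (A : Type u) [NonUnitalRing A] [Module F A] [IsScalarTower F A A]
          [SMulCommClass F A A], InM F 3 A → (∀ m, 6 ≤ m → InS m A) → K A) →
        ¬ ComputablePred fun w : QPoly =>
          ∀ (A : Type u) [NonUnitalRing A] [Module F A] [IsScalarTower F A A]
            [SMulCommClass F A A], K A → Holds F us w A) ∧
    (∀ n, 3 ≤ n → ¬ ComputablePred fun q : List QPoly × QPoly =>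
      ∀ (A : Type u) [NonUnitalRing A] [Module F A] [IsScalarTower F A A]
        [SMulCommClass F A A], InM F n A → Holds F q.1 q.2 A) ∧
    (∀ n, 6 ≤ n → ¬ ComputablePred fun q : List QPoly × QPoly =>
      ∀ (A : Type u) [NonUnitalRing A] [Module F A] [IsScalarTower F A A]
        [SMulCommClass F A A], InS n A → Holds F q.1 q.2 A) := by
  obtain ⟨Q, hQ, M, q0, N, -, hN, hund⟩ := exists_sys
  have main : ∀ K : (∀ (A : Type u) [NonUnitalRing A] [Module F A] [IsScalarTower F A A]
          [SMulCommClass F A A], Prop),
        (∀ (A : Type u) [NonUnitalRing A] [Module F A] [IsScalarTower F A A]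
          [SMulCommClass F A A], InM F 3 A → (∀ m, 6 ≤ m → InS m A) → K A) →
        ¬ ComputablePred fun w : QPoly =>
          ∀ (A : Type u) [NonUnitalRing A] [Module F A] [IsScalarTower F A A]
            [SMulCommClass F A A], K A → Holds F (rels M) w A := by
    intro K hK hc
    apply hund
    refine ComputablePred.computable_of_manyOneReducible ⟨_, conf_computable M q0 N hN, ?_⟩ hc
    intro n
    constructor
    · intro h A _ _ _ _ _
      exact holds_of_halts M F h
    · intro h
      by_contra hn
      exact not_holds M F hn (h (AA M F) (hK (AA M F) (AA_inM M F le_rfl)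
        (fun m hm => AA_inS M F hm)))
  have pairing : ∀ K : (∀ (A : Type u) [NonUnitalRing A] [Module F A] [IsScalarTower F A A]
          [SMulCommClass F A A], Prop),
        (∀ (A : Type u) [NonUnitalRing A] [Module F A] [IsScalarTower F A A]
          [SMulCommClass F A A], InM F 3 A → (∀ m, 6 ≤ m → InS m A) → K A) →
        ¬ ComputablePred fun q : List QPoly × QPoly =>
          ∀ (A : Type u) [NonUnitalRing A] [Module F A] [IsScalarTower F A A]
            [SMulCommClass F A A], K A → Holds F q.1 q.2 A := by
    intro K hK hc
    apply main K hK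
    exact ComputablePred.computable_of_manyOneReducible
      ⟨fun w => (rels M, w), Computable.pair (Computable.const _) Computable.id,
        fun w => Iff.rfl⟩ hc
  refine ⟨⟨rels M, main⟩, ?_, ?_⟩
  · intro n hn
    exact pairing (fun A _ _ _ _ => InM F n A) (fun A _ _ _ _ h _ => inM_mono F hn h)
  · intro n hn
    exact pairing (fun A _ _ _ _ => InS n A) (fun A _ _ _ _ _ h => h n hn)

end Pool.Agent.Results.MP_79b5eb_lc.EqualityUndecidable
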